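import Mathlib
import Pool.Agent.Helper417.Mer.HartogsExt

/-! Holomorphic functions of several variables are analytic: Cauchy estimates for the iterated
derivatives and the one variable Taylor series along lines. -/

set_option autoImplicit false

open Metric Set Filter Topology
open scoped Nat

namespace Pool.Agent.Y785.MV.Osg

open Pool.Agent.Helper417.Mer.Hartogs673

section General

variable {E F : Type*} [NormedAddCommGroup E] [NormedSpace ℂ E] [FiniteDimensional ℂ E]
  [NormedAddCommGroup F] [NormedSpace ℂ F] [CompleteSpace F]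

/-- the iterated derivative of a holomorphic map is holomorphic -/
theorem diff_iterated {f : E → F} {s : Set E} (hs : IsOpen s) (hf : DifferentiableOn ℂ f s)
    (k : ℕ) : DifferentiableOn ℂ (iteratedFDeriv ℂ k f) s := by
  have h1 : ContDiffOn ℂ ((k + 1 : ℕ) : WithTop ℕ∞) f s := contDiffOn_of_differentiableOn hs hf _
  have h2 := h1.differentiableOn_iteratedFDerivWithin (m := k)
    (by exact_mod_cast Nat.lt_succ_self k) hs.uniqueDiffOn
  exact h2.congr fun x hx => (iteratedFDerivWithin_of_isOpen k hs hx).symm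

/-- Cauchy estimates by small steps -/
theorem cauchy_steps {f : E → F} {c : E} {R M δ : ℝ} (hδ : 0 < δ)
    (hd : DifferentiableOn ℂ f (ball c R)) (hM : ∀ z ∈ ball c R, ‖f z‖ ≤ M) (k : ℕ) :
    ∀ x ∈ ball c (R - k * δ), ‖iteratedFDeriv ℂ k f x‖ ≤ M * (2 / δ) ^ k := by
  induction k with
  | zero =>
    intro x hx
    rw [norm_iteratedFDeriv_zero, pow_zero, mul_one]
    apply hM
    simpa using hx
  | succ k ih =>
    intro x hx
    have hsub : ball x δ ⊆ ball c (R - k * δ) := by
      intro y hy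
      rw [mem_ball] at *
      push_cast at hx
      calc dist y c ≤ dist y x + dist x c := dist_triangle _ _ _
        _ < R - k * δ := by linarith
    have hsub' : ball c (R - k * δ) ⊆ ball c R := by
      apply ball_subset_ball
      have : 0 ≤ (k : ℝ) * δ := by positivity
      linarith
    have hdk : DifferentiableOn ℂ (iteratedFDeriv ℂ k f) (ball x δ) :=
      (diff_iterated isOpen_ball hd k).mono (hsub.trans hsub')
    have hx' := hsub (mem_ball_self hδ)
    have hmaps : MapsTo (iteratedFDeriv ℂ k f) (ball x δ)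
        (closedBall (iteratedFDeriv ℂ k f x) (2 * (M * (2 / δ) ^ k))) := by
      intro y hy
      rw [mem_closedBall, dist_eq_norm]
      calc _ ≤ ‖iteratedFDeriv ℂ k f y‖ + ‖iteratedFDeriv ℂ k f x‖ := norm_sub_le _ _
        _ ≤ 2 * (M * (2 / δ) ^ k) := by linarith [ih y (hsub hy), ih x hx']
    have h1 := Complex.norm_fderiv_le_div_of_mapsTo_ball hdk hmaps hδ
    rw [norm_fderiv_iteratedFDeriv] at h1
    refine h1.trans (le_of_eq ?_)
    rw [pow_succ]
    field_simp

/-- Cauchy estimates at the centre -/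
theorem cauchy_centre {f : E → F} {c : E} {R M : ℝ} (hR : 0 < R)
    (hd : DifferentiableOn ℂ f (ball c R)) (hM : ∀ z ∈ ball c R, ‖f z‖ ≤ M) (n : ℕ) :
    ‖iteratedFDeriv ℂ n f c‖ ≤ n ! * (M * Real.exp 1 * (2 * Real.exp 1 / R) ^ n) := by
  have hM0 : 0 ≤ M := (norm_nonneg _).trans (hM c (mem_ball_self hR))
  have hn : (0 : ℝ) < n + 1 := by positivity
  have h1 := cauchy_steps (f := f) (c := c) (R := R) (M := M) (δ := R / (n + 1)) (by positivity)
    hd hM n c (by
      apply mem_ball_self
      have : (n : ℝ) * (R / (n + 1)) = R - R / (n + 1) := by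
        field_simp
        ring
      rw [this]
      have : 0 < R / (n + 1) := by positivity
      linarith)
  refine h1.trans ?_
  have h2 : ((n : ℝ) + 1) ^ n ≤ n ! * Real.exp (n + 1) := by
    have h5 := Real.pow_div_factorial_le_exp ((n : ℝ) + 1) hn.le n
    have h6 : (0 : ℝ) < n ! := by positivity
    rwa [div_le_iff₀ h6, mul_comm] at h5
  have h3 : (2 / (R / ((n : ℝ) + 1))) ^ n = (2 / R) ^ n * (n + 1) ^ n := by
    rw [← mul_pow]
    congr 1
    field_simp
  rw [h3]
  calc M * ((2 / R) ^ n * (n + 1) ^ n) ≤ M * ((2 / R) ^ n * (n ! * Real.exp (n + 1))) := by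
        gcongr
    _ = n ! * (M * Real.exp 1 * (2 * Real.exp 1 / R) ^ n) := by
        rw [Real.exp_add, ← Real.exp_one_pow, div_pow, div_pow, mul_pow]
        ring

/-- the Taylor series along a line -/
theorem line_sum {f : E → F} {c : E} {R : ℝ} (hd : DifferentiableOn ℂ f (ball c R)) {v : E}
    (hv : ‖v‖ < R) :
    HasSum (fun n : ℕ => (n ! : ℂ)⁻¹ • iteratedFDeriv ℂ n f c (fun _ => v)) (f (c + v)) := by
  have hR : 0 < R := (norm_nonneg v).trans_lt hv
  -- the map on a ball around zero
  set h : E → F := fun w => f (c + w) with hh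
  have hhd : DifferentiableOn ℂ h (ball 0 R) := by
    refine hd.comp (by fun_prop) fun w hw => ?_
    rw [mem_ball, dist_eq_norm] at *
    simpa using hw
  set L : ℂ →L[ℂ] E := (ContinuousLinearMap.id ℂ ℂ).smulRight v with hL
  have hLa : ∀ t : ℂ, L t = t • v := fun t => by simp [hL]
  obtain ⟨ρ, hρ1, hρ⟩ : ∃ ρ : ℝ, 1 < ρ ∧ ρ * ‖v‖ < R := by
    rcases eq_or_ne ‖v‖ 0 with h0 | h0
    · exact ⟨2, by norm_num, by rw [h0]; simpa using hR⟩
    · have hvp : 0 < ‖v‖ := lt_of_le_of_ne (norm_nonneg v) (Ne.symm h0)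
      obtain ⟨ρ, h1, h2⟩ := exists_between ((one_lt_div hvp).2 hv)
      exact ⟨ρ, h1, (lt_div_iff₀ hvp).1 h2⟩
  have hmem : ∀ t ∈ ball (0 : ℂ) ρ, L t ∈ ball (0 : E) R := by
    intro t ht
    rw [mem_ball_zero_iff] at *
    rw [hLa, norm_smul]
    exact lt_of_le_of_lt (mul_le_mul_of_nonneg_right ht.le (norm_nonneg v)) hρ
  have hgd : DifferentiableOn ℂ (h ∘ L) (ball 0 ρ) :=
    hhd.comp L.differentiable.differentiableOn hmem
  have h1 := Complex.hasSum_taylorSeries_on_ball hgd
    (z := 1) (by rw [mem_ball_zero_iff]; simpa using hρ1)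
  have h2 : (h ∘ L) 1 = f (c + v) := by
    simp [hh, hLa]
  rw [h2] at h1
  have h3 : ∀ n : ℕ, iteratedDeriv n (h ∘ L) 0 = iteratedFDeriv ℂ n f c (fun _ => v) := by
    intro n
    have hpre : IsOpen (L ⁻¹' ball (0 : E) R) := isOpen_ball.preimage L.continuous
    have h0 : L 0 ∈ ball (0 : E) R := by
      rw [map_zero]
      exact mem_ball_self hR
    have h4 := L.iteratedFDerivWithin_comp_right (n := ((n : ℕ) : WithTop ℕ∞)) (f := h)
      (contDiffOn_of_differentiableOn isOpen_ball hhd n) isOpen_ball.uniqueDiffOn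
      hpre.uniqueDiffOn h0 (i := n) le_rfl
    rw [iteratedFDerivWithin_of_isOpen n hpre h0, iteratedFDerivWithin_of_isOpen n isOpen_ball h0,
      map_zero] at h4
    have h5 : iteratedFDeriv ℂ n h 0 = iteratedFDeriv ℂ n f c := by
      rw [hh, iteratedFDeriv_comp_add_left, add_zero]
    rw [iteratedDeriv_eq_iteratedFDeriv, h4, h5]
    simp [ContinuousMultilinearMap.compContinuousLinearMap_apply, hLa]
  have h6 : (fun n : ℕ => (n ! : ℂ)⁻¹ • ((1 : ℂ) - 0) ^ n • iteratedDeriv n (h ∘ L) 0) =
      fun n : ℕ => (n ! : ℂ)⁻¹ • iteratedFDeriv ℂ n f c (fun _ => v) := by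
    funext n
    rw [h3, sub_zero, one_pow, one_smul]
  rwa [h6] at h1

/-- Osgood: a holomorphic map on an open subset of a finite dimensional space is analytic -/
theorem analytic {f : E → F} {U : Set E} (hU : IsOpen U) (hf : DifferentiableOn ℂ f U) :
    AnalyticOnNhd ℂ f U := by
  intro c hc
  obtain ⟨R, hR, M, hM0, hsub, hM⟩ := exists_bound hU hf hc
  have hd : DifferentiableOn ℂ f (ball c R) := hf.mono hsub
  have he : 0 < Real.exp 1 := Real.exp_pos 1
  set r : NNReal := ⟨R / (2 * Real.exp 1), by positivity⟩ with hr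
  have hrv : (r : ℝ) = R / (2 * Real.exp 1) := rfl
  have hr0 : 0 < r := by
    rw [← NNReal.coe_pos, hrv]
    positivity
  have hrR : (r : ℝ) ≤ R := by
    rw [hrv, div_le_iff₀ (by positivity)]
    have : 1 ≤ Real.exp 1 := by
      have := Real.add_one_le_exp (1 : ℝ)
      linarith
    nlinarith
  refine ⟨fun n => (n ! : ℂ)⁻¹ • iteratedFDeriv ℂ n f c, r, ?_, ?_, ?_⟩
  · refine FormalMultilinearSeries.le_radius_of_bound _ (M * Real.exp 1) fun n => ?_
    rw [norm_smul, norm_inv, Complex.norm_natCast]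
    have h1 := cauchy_centre hR hd hM n
    have h6 : (0 : ℝ) < n ! := by positivity
    calc (n ! : ℝ)⁻¹ * ‖iteratedFDeriv ℂ n f c‖ * (r : ℝ) ^ n
        ≤ (n ! : ℝ)⁻¹ * (n ! * (M * Real.exp 1 * (2 * Real.exp 1 / R) ^ n)) * (r : ℝ) ^ n := by
          gcongr
      _ = M * Real.exp 1 * ((2 * Real.exp 1 / R) * r) ^ n := by
          rw [mul_pow]
          field_simp
      _ = M * Real.exp 1 := by
          have : (2 * Real.exp 1 / R) * (r : ℝ) = 1 := by
            rw [hrv]
            field_simp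
          rw [this, one_pow, mul_one]
  · exact_mod_cast hr0
  · intro y hy
    have hy' : ‖y‖ < R := by
      have : ‖y‖ < (r : ℝ) := by
        simpa using hy
      linarith
    have := line_sum hd hy'
    simpa using this

end General

theorem t (X : Type) [Fintype X] (U : Set (X → ℂ)) (hU : IsOpen U) (F : (X → ℂ) → ℂ)
    (hF : DifferentiableOn ℂ F U) : AnalyticOnNhd ℂ F U :=
  analytic hU hF

end Pool.Agent.Y785.MV.Osg
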